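import Pool.Agent.Q83.Carl.Blow

/-!
# The Carleson operators with phase `|t| ^ ε` are not uniformly bounded

The definitions (in `Q83.Carl.Defs`): `truncated ε l f x δ` is the integral of
`exp (i l |x - y| ^ ε) / (x - y) * f y` over `δ < |x - y| < 1 / δ`, `H ε l f x` is its limit as
`δ → 0+`, and `maximal ε f x` is the supremum over all real `l` of `|H ε l f x|`.

The limit defining `H` exists for Schwartz functions, and for every constant `C` there is one
Schwartz function `f` such that for all sufficiently small positive `ε` the `L²` norm of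
`maximal ε f` is larger than `C` times the `L²` norm of `f`.
-/

set_option autoImplicit false
open MeasureTheory Filter Topology Set Q83.Carl
open scoped ENNReal NNReal SchwartzMap

namespace Pool.Agent.Results.MP_45ee41_an.Unbounded

theorem result :
    (∀ (ε l : ℝ) (f : 𝓢(ℝ, ℂ)) (x : ℝ), 0 < ε → ε < 1 →
      Tendsto (truncated ε l f x) (𝓝[>] 0) (𝓝 (H ε l f x))) ∧
    (∀ C : ℝ≥0, ∃ (f : 𝓢(ℝ, ℂ)) (ε₀ : ℝ), 0 < ε₀ ∧ ∀ ε : ℝ, 0 < ε → ε < ε₀ →
      (C : ℝ≥0∞) * eLpNorm f 2 volume < eLpNorm (maximal ε f) 2 volume) := by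
  refine ⟨fun ε l f x _ _ => ?_, blow⟩
  rw [H_eq]
  exact tendsto_truncated ε l f x

end Pool.Agent.Results.MP_45ee41_an.Unbounded
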